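import Pool.Agent.Helper8.TB.St

/-! Module Face of project TB: uniqueness of the face. -/

set_option autoImplicit false

namespace Pool.Agent.Helper92.TB

open Pool.Helper8.TB MeasureTheory

theorem hFace : StFace := by
  intro n m τ ε q q1 p r hD e ν x he hν hx hxν
  -- it suffices to compare inner products with every `k`
  refine ext_inner_right ℝ (fun k => ?_)
  set t : ℝ := inner ℝ ν e with ht
  set a : ℝ := inner ℝ ν k with ha
  set b : ℝ := inner ℝ k e with hb
  set κ : ℝ := ‖k‖ ^ 2 with hκ
  set N : ℝ → ℝ := fun s => Real.sqrt (1 + 2 * a * s + κ * s ^ 2) with hN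
  have hNn : ∀ s : ℝ, ‖ν + s • k‖ = N s := by
    intro s
    have h1 : ‖ν + s • k‖ ^ 2 = 1 + 2 * a * s + κ * s ^ 2 := by
      rw [@norm_add_sq_real, hν, inner_smul_right, norm_smul, mul_pow, Real.norm_eq_abs, sq_abs]
      ring
    rw [hN]
    simp only
    rw [← h1, Real.sqrt_sq (norm_nonneg _)]
  have hN0 : N 0 = 1 := by simp [hN]
  set T : ℝ → ℝ := fun s => (t + s * b) / N s with hT
  have hT0 : T 0 = t := by simp [hT, hN0]
  set H : ℝ → ℝ := fun s => N s * q (T s) + (t + s * b) * p (T s) with hH
  -- derivative of N at 0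
  have dN : HasDerivAt N a 0 := by
    have h1 : HasDerivAt (fun s : ℝ => 1 + 2 * a * s + κ * s ^ 2) (2 * a) 0 := by
      have h2 : HasDerivAt (fun s : ℝ => 1 + 2 * a * s) (2 * a) 0 := by
        simpa using ((hasDerivAt_id (0 : ℝ)).const_mul (2 * a)).const_add 1
      have h3 : HasDerivAt (fun s : ℝ => κ * s ^ 2) 0 0 := by
        simpa using ((hasDerivAt_pow 2 (0 : ℝ)).const_mul κ)
      have h6 := h2.add h3
      rw [add_zero] at h6
      exact h6
    have h4 := h1.sqrt (by norm_num)
    have h5 : 2 * a / (2 * Real.sqrt (1 + 2 * a * 0 + κ * 0 ^ 2)) = a := by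
      have : (1 + 2 * a * 0 + κ * 0 ^ 2 : ℝ) = 1 := by ring
      rw [this, Real.sqrt_one]; ring
    rw [h5] at h4
    exact h4
  have dL : HasDerivAt (fun s : ℝ => t + s * b) b 0 := by
    simpa using ((hasDerivAt_id (0 : ℝ)).mul_const b).const_add t
  have dT : HasDerivAt T (b - t * a) 0 := by
    have h1 := dL.div dN (by rw [hN0]; exact one_ne_zero)
    have h2 : (b * N 0 - (t + 0 * b) * a) / N 0 ^ 2 = b - t * a := by
      rw [hN0]; ring
    rw [h2] at h1
    exact h1
  have dH : HasDerivAt H (a * q t + b * p t) 0 := by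
    have hq' : HasDerivAt (fun s => q (T s)) (q1 t * (b - t * a)) 0 := by
      have h1 : HasDerivAt q (q1 t) (T 0) := by rw [hT0]; exact hD.hq t
      exact h1.comp 0 dT
    have hp' : HasDerivAt (fun s => p (T s)) (r t * (b - t * a)) 0 := by
      have h1 : HasDerivAt p (r t) (T 0) := by rw [hT0]; exact hD.hp t
      exact h1.comp 0 dT
    have h1 := (dN.mul hq').add (dL.mul hp')
    have h2 : a * q (T 0) + N 0 * (q1 t * (b - t * a)) +
        (b * p (T 0) + (t + 0 * b) * (r t * (b - t * a))) = a * q t + b * p t := by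
      rw [hT0, hN0]
      have h3 := hD.hr t
      have h4 : (t + 0 * b) * (r t * (b - t * a)) = (t * r t) * (b - t * a) := by ring
      rw [h4, h3]
      ring
    rw [h2] at h1
    exact h1
  -- the lower bound
  have key : ∀ s : ℝ, 0 < N s → inner ℝ x ν + s * inner ℝ x k ≤ H s := by
    intro s hs
    have hu : ‖(N s)⁻¹ • (ν + s • k)‖ = 1 := by
      rw [norm_smul, hNn, norm_inv, Real.norm_eq_abs, abs_of_pos hs, inv_mul_cancel₀ hs.ne']
    have h1 := hx _ hu
    unfold hh at h1
    have h2 : (inner ℝ ((N s)⁻¹ • (ν + s • k)) e : ℝ) = T s := by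
      rw [real_inner_smul_left, inner_add_left, real_inner_smul_left, hT]
      simp only
      rw [← ht, ← hb]
      field_simp
    rw [h2, real_inner_smul_right, inner_add_right, real_inner_smul_right] at h1
    have h3 := mul_le_mul_of_nonneg_left h1 hs.le
    rw [← mul_assoc, mul_inv_cancel₀ hs.ne', one_mul] at h3
    have h4 : N s * (q (T s) + T s * p (T s)) = H s := by
      have h5 : N s * T s = t + s * b := by
        rw [hT]; field_simp
      rw [hH]
      simp only
      rw [mul_add, ← mul_assoc, h5]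
    rw [h4] at h3
    exact h3
  have hev : ∀ᶠ s in nhds (0 : ℝ), 0 < N s := by
    have hc : ContinuousAt N 0 := dN.continuousAt
    exact hc.eventually (lt_mem_nhds (by rw [hN0]; exact one_pos))
  have hmin : IsLocalMin (fun s => H s - (inner ℝ x ν + s * inner ℝ x k)) 0 := by
    filter_upwards [hev] with s hs
    have h1 := key s hs
    have h2 : H 0 = inner ℝ x ν := by
      rw [hH]
      simp only
      rw [hN0, hT0, hxν]
      unfold hh
      rw [← ht]
      ring
    rw [h2]
    simp only [zero_mul, add_zero, sub_self]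
    linarith
  have dD : HasDerivAt (fun s => H s - (inner ℝ x ν + s * inner ℝ x k))
      (a * q t + b * p t - inner ℝ x k) 0 := by
    have h1 : HasDerivAt (fun s : ℝ => (inner ℝ x ν : ℝ) + s * inner ℝ x k) (inner ℝ x k) 0 := by
      simpa using ((hasDerivAt_id (0 : ℝ)).mul_const (inner ℝ x k : ℝ)).const_add (inner ℝ x ν : ℝ)
    exact dH.sub h1
  have h0 := hmin.hasDerivAt_eq_zero dD
  have hX : (inner ℝ (X q p e ν) k : ℝ) = a * q t + b * p t := by
    unfold X
    rw [inner_add_left, real_inner_smul_left, real_inner_smul_left, ← ht, ← ha,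
      real_inner_comm k e, ← hb]
    ring
  rw [hX]
  linarith

end Pool.Agent.Helper92.TB
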